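import Mathlib
import Pool.Agent.Helper43.RK.StI

/-!
# Module IQC of project RK: the relations modulo the center
-/

set_option autoImplicit false

namespace Pool.Agent.Helper20.RK

open Pool.Agent.Helper43.RK

/-- conjugation of `cj a t i` by `t^j` -/
private theorem cj_conj {G : Type} [Group G] (a t : G) (i j : ℤ) :
    t ^ (-j) * cj a t i * t ^ j = cj a t (i + j) := by
  unfold cj
  rw [show -(i + j) = -j + -i by ring, zpow_add t (-j) (-i), zpow_add t i j]
  simp only [mul_assoc]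

/-- conjugation of `cj a t i` by an element `f` commuting with `a` and squaring `t` -/
private theorem cj_f {G : Type} [Group G] (f a t : G) (hfa : f * a = a * f) (hft : f⁻¹ * t * f = t ^ 2)
    (i : ℤ) : f⁻¹ * cj a t i * f = cj a t (2 * i) := by
  have h1 : ∀ m : ℤ, f⁻¹ * t ^ m * f = t ^ (2 * m) := by
    intro m
    have h : f⁻¹ * t ^ m * f = (f⁻¹ * t * f) ^ m := by
      have h2 := conj_zpow (i := m) (a := f⁻¹) (b := t)
      rw [inv_inv] at h2
      exact h2.symm
    rw [h, hft, ← zpow_natCast, ← zpow_mul]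
    norm_num
  have h2 : f⁻¹ * a * f = a := by
    rw [mul_assoc, ← hfa, ← mul_assoc, inv_mul_cancel, one_mul]
  unfold cj
  calc f⁻¹ * (t ^ (-i) * a * t ^ i) * f
      = (f⁻¹ * t ^ (-i) * f) * (f⁻¹ * a * f) * (f⁻¹ * t ^ i * f) := by group
    _ = t ^ (-(2 * i)) * a * t ^ (2 * i) := by
        rw [h1, h1, h2, show 2 * -i = -(2 * i) by ring]

/-- `f^-m t f^m = t^(2^m)` -/
private theorem f_pow {G : Type} [Group G] (f t : G) (hft : f⁻¹ * t * f = t ^ 2) (m : ℕ) :
    (f ^ m)⁻¹ * t * f ^ m = t ^ (2 ^ m) := by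
  induction m with
  | zero => simp
  | succ m ih =>
    have h : (f ^ (m + 1))⁻¹ * t * f ^ (m + 1) = f⁻¹ * ((f ^ m)⁻¹ * t * f ^ m) * f := by
      rw [pow_succ]; group
    rw [h, ih]
    have h2 := conj_pow (i := 2 ^ m) (a := f⁻¹) (b := t)
    rw [inv_inv] at h2
    rw [← h2, hft, ← pow_mul, pow_succ 2 m, mul_comm]

theorem hIQC : StIQC := by
  intro hICM n k β hP G _ g a t hR hf ht hal
  obtain ⟨e, he3, hke⟩ := hP.ke
  have hk7 : 7 ≤ k := by
    have := hP.k8
    omega
  -- `f` commutes with `a`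
  have hgk : ∀ m : ℕ, a⁻¹ * g ^ m * a = g ^ (k * m) := by
    intro m
    have h2 := conj_pow (i := m) (a := a⁻¹) (b := g)
    rw [inv_inv] at h2
    rw [← h2, hR.r1, ← pow_mul]
  have hfk : g ^ (k * 4) = g ^ 4 := by
    have h : g ^ (k * 4) = (g ^ 4) ^ (k - 1) * g ^ 4 := by
      rw [← pow_mul, ← pow_add]
      congr 1
      omega
    rw [h, hf, one_mul]
  have hfa : g ^ 4 * a = a * g ^ 4 := by
    have h := hgk 4
    rw [hfk] at h
    calc g ^ 4 * a = a * (a⁻¹ * g ^ 4 * a) := by group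
      _ = a * g ^ 4 := by rw [h]
  -- the relation `al`
  have hal1 : cj a t (1 - 2 ^ n) = a * cj a t 1 := by
    unfold cj
    rw [hal, zpow_neg, zpow_one]
  have h0 : cj a t 0 = a := by simp [cj]
  have hc : ∀ j : ℤ, cj a t ((1 - 2 ^ n) + j) = cj a t j * cj a t (1 + j) := by
    intro j
    have h1 : cj a t (0 + j) = t ^ (-j) * a * t ^ j := by
      rw [← cj_conj, h0]
    rw [zero_add] at h1
    rw [← cj_conj, hal1, ← cj_conj a t 1 j, h1]
    have h2 : t ^ (-j) = (t ^ j)⁻¹ := zpow_neg t j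
    rw [h2]
    group
  -- `a² = 1`
  have ha2 : a * a = 1 := by
    have e1 : cj a t (2 * (1 - 2 ^ n)) = a * cj a t 2 := by
      rw [← cj_f (g ^ 4) a t hfa hR.r2, hal1]
      have h2 := cj_f (g ^ 4) a t hfa hR.r2 1
      have h3 := cj_f (g ^ 4) a t hfa hR.r2 0
      rw [mul_zero, h0] at h3
      rw [mul_one] at h2
      calc (g ^ 4)⁻¹ * (a * cj a t 1) * g ^ 4
          = ((g ^ 4)⁻¹ * a * g ^ 4) * ((g ^ 4)⁻¹ * cj a t 1 * g ^ 4) := by group
        _ = a * cj a t 2 := by rw [h2, h3]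
    have e2 : cj a t (2 * (1 - 2 ^ n)) = (a * cj a t 1) * (cj a t 1 * cj a t 2) := by
      have h := hc (1 - 2 ^ n)
      rw [← two_mul, hal1] at h
      have h' := hc 1
      rw [add_comm, show (1 : ℤ) + 1 = 2 by norm_num] at h'
      rw [h, h']
    have e3 : cj a t 1 * cj a t 1 = 1 := by
      have h : a * cj a t 2 = a * (cj a t 1 * cj a t 1) * cj a t 2 := by
        rw [← e1, e2]
        simp only [mul_assoc]
      have h2 := mul_right_cancel h
      have h3 : a * 1 = a * (cj a t 1 * cj a t 1) := by rw [mul_one]; exact h2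
      exact (mul_left_cancel h3).symm
    have e4 : cj a t 1 = t⁻¹ * a * t := by
      unfold cj
      rw [zpow_neg, zpow_one]
    rw [e4] at e3
    calc a * a = t * ((t⁻¹ * a * t) * (t⁻¹ * a * t)) * t⁻¹ := by group
      _ = 1 := by rw [e3]; group
  have hai : a⁻¹ = a := inv_eq_of_mul_eq_one_left ha2
  -- `f^(2β) = 1`
  have hdvd : k - 1 ∣ 2 * β := by
    have h1 : k - 1 = 2 * ((k - 1) / 2) := by
      have := hP.k8
      omega
    rw [h1]
    exact Nat.mul_dvd_mul_left 2 hP.kb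
  have hf2 : (g ^ 4) ^ (2 * β) = 1 := by
    obtain ⟨c, hc2⟩ := hdvd
    rw [hc2, pow_mul, hf, one_pow]
  have hth : (g ^ β) ^ 8 = 1 := by
    rw [← hf2, ← pow_mul, ← pow_mul]
    congr 1
    ring
  refine ⟨ha2, hfa, hR.r2, ?_, ?_, hth, ?_, ?_, ?_, hal1, ?_⟩
  · -- w2
    have h1 : a * g ^ β * a = g ^ (k * β) := by
      have h := hgk β
      rw [hai] at h
      exact h
    have h2 : (g ^ β * a) * (g ^ β * a) = g ^ β * g ^ (k * β) := by
      rw [← h1]
      simp only [mul_assoc]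
    rw [h2, ← pow_add]
    have h3 : β + k * β = β * 8 * 2 ^ (e - 3) := by
      have h4 : k + 1 = 8 * 2 ^ (e - 3) := by
        have h5 : 2 ^ e = 8 * 2 ^ (e - 3) := by
          rw [show (8 : ℕ) = 2 ^ 3 by norm_num, ← pow_add]
          congr 1
          omega
        have h6 : 1 ≤ 2 ^ e := Nat.one_le_two_pow
        rw [hke, ← h5]
        omega
      calc β + k * β = β * (k + 1) := by ring
        _ = β * 8 * 2 ^ (e - 3) := by rw [h4]; ring
    rw [h3, pow_mul, pow_mul, hth, one_pow]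
  · -- wt
    have h1 := hR.r3
    rw [hal1] at h1
    have e4 : cj a t 1 = t⁻¹ * a * t := by
      unfold cj
      rw [zpow_neg, zpow_one]
    rw [e4] at h1
    calc (g ^ β * a)⁻¹ * t * (g ^ β * a) = a⁻¹ * ((g ^ β)⁻¹ * t * g ^ β) * a := by group
      _ = a⁻¹ * (a * (t⁻¹ * a * t) * t⁻¹) * a := by rw [h1]
      _ = t⁻¹ * (a * a) := by group
      _ = t⁻¹ := by rw [ha2, mul_one]
  · -- tht
    have h1 : (g ^ β) ^ 4 = (g ^ 4) ^ β := by
      rw [← pow_mul, ← pow_mul, mul_comm]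
    rw [h1]
    exact f_pow (g ^ 4) t hR.r2 β
  · -- tfin
    refine ⟨2 ^ (k - 1) - 1, ?_, ht⟩
    have h1 : 1 < 2 ^ (k - 1) := Nat.one_lt_two_pow (by omega)
    omega
  · -- com
    exact hICM G a t (2 ^ n) ha2 hal1
  · -- gfin
    refine ⟨k * k - 1, ?_, ?_⟩
    · have h1 : 7 * 7 ≤ k * k := Nat.mul_le_mul hk7 hk7
      omega
    · have h1 : g = g ^ (k * k) := by
        have h2 := hgk k
        rw [← hR.r1] at h2
        calc g = (a * a)⁻¹ * g * (a * a) := by rw [ha2]; group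
          _ = a⁻¹ * (a⁻¹ * g * a) * a := by group
          _ = g ^ (k * k) := h2
      have h3 : g ^ (k * k - 1) * g = 1 * g := by
        rw [← pow_succ, one_mul]
        have h4 : k * k - 1 + 1 = k * k := by
          have h1 : 7 * 7 ≤ k * k := Nat.mul_le_mul hk7 hk7
          omega
        rw [h4, ← h1]
      exact mul_right_cancel h3

end Pool.Agent.Helper20.RK
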